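import Mathlib.Combinatorics.SimpleGraph.Finite
import Mathlib.Combinatorics.SimpleGraph.DegreeSum
import Mathlib.Analysis.SpecialFunctions.Exp
import Mathlib.Analysis.Complex.Exponential
import Mathlib.Tactic

/-!
# Elementary probability in `G(n,p)`

`ex s p f` is the expectation of `f W` for a random subset `W` of `s` that contains each point with
probability `p` independently; `gnp n p P` is the probability of a property of `G(n,p)`.
(Follows the elementary interface of `Pool.Agent.TH965.Spread` and `Pool.Agent.TH948.SH.Base`.)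
-/

set_option autoImplicit false
set_option linter.unusedSectionVars false

namespace Pool.Agent.Q221.Gnp

open Finset

section exs

variable {X : Type*} [DecidableEq X]

/-- expectation over a `p`-random subset of `s` -/
noncomputable def ex (s : Finset X) (p : ℝ) (f : Finset X → ℝ) : ℝ :=
  ∑ W ∈ s.powerset, p ^ W.card * (1 - p) ^ (s.card - W.card) * f W

theorem ex_empty (p : ℝ) (f : Finset X → ℝ) : ex ∅ p f = f ∅ := by
  simp [ex]

theorem ex_insert (s : Finset X) (x : X) (hx : x ∉ s) (p : ℝ) (f : Finset X → ℝ) :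
    ex (insert x s) p f = (1 - p) * ex s p f + p * ex s p (fun W => f (insert x W)) := by
  unfold ex
  rw [Finset.sum_powerset_insert hx, Finset.card_insert_of_notMem hx, Finset.mul_sum,
    Finset.mul_sum]
  congr 1
  · apply Finset.sum_congr rfl
    intro W hW
    have hle : W.card ≤ s.card := Finset.card_le_card (Finset.mem_powerset.mp hW)
    rw [show s.card + 1 - W.card = (s.card - W.card) + 1 by omega, pow_succ]
    ring
  · apply Finset.sum_congr rfl
    intro W hW
    have hxW : x ∉ W := fun h => hx (Finset.mem_powerset.mp hW h)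
    rw [Finset.card_insert_of_notMem hxW, Nat.add_sub_add_right, pow_succ]
    ring

theorem ex_add (s : Finset X) (p : ℝ) (f g : Finset X → ℝ) :
    ex s p (fun W => f W + g W) = ex s p f + ex s p g := by
  unfold ex
  rw [← Finset.sum_add_distrib]
  apply Finset.sum_congr rfl
  intro W _
  ring

theorem ex_mul_left (s : Finset X) (p c : ℝ) (f : Finset X → ℝ) :
    ex s p (fun W => c * f W) = c * ex s p f := by
  unfold ex
  rw [Finset.mul_sum]
  apply Finset.sum_congr rfl
  intro W _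
  ring

theorem ex_mul_right (s : Finset X) (p c : ℝ) (f : Finset X → ℝ) :
    ex s p (fun W => f W * c) = ex s p f * c := by
  unfold ex
  rw [Finset.sum_mul]
  apply Finset.sum_congr rfl
  intro W _
  ring

theorem ex_sub (s : Finset X) (p : ℝ) (f g : Finset X → ℝ) :
    ex s p (fun W => f W - g W) = ex s p f - ex s p g := by
  unfold ex
  rw [← Finset.sum_sub_distrib]
  apply Finset.sum_congr rfl
  intro W _
  ring

theorem ex_const (s : Finset X) (p c : ℝ) : ex s p (fun _ => c) = c := by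
  induction s using Finset.induction_on with
  | empty => simp [ex]
  | insert x s hx ih =>
    rw [ex_insert s x hx, ih]; ring

theorem ex_sum {ι : Type*} (s : Finset X) (p : ℝ) (t : Finset ι) (f : ι → Finset X → ℝ) :
    ex s p (fun W => ∑ i ∈ t, f i W) = ∑ i ∈ t, ex s p (f i) := by
  classical
  induction t using Finset.induction_on with
  | empty => simp only [Finset.sum_empty]; exact ex_const s p 0
  | insert i t hi ih =>
    simp only [Finset.sum_insert hi]
    rw [ex_add, ih]

theorem ex_mono (s : Finset X) {p : ℝ} (hp0 : 0 ≤ p) (hp1 : p ≤ 1) {f g : Finset X → ℝ}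
    (h : ∀ W, W ⊆ s → f W ≤ g W) : ex s p f ≤ ex s p g := by
  unfold ex
  apply Finset.sum_le_sum
  intro W hW
  apply mul_le_mul_of_nonneg_left (h W (Finset.mem_powerset.mp hW))
  have : 0 ≤ 1 - p := by linarith
  positivity

theorem ex_nonneg (s : Finset X) {p : ℝ} (hp0 : 0 ≤ p) (hp1 : p ≤ 1) {f : Finset X → ℝ}
    (h : ∀ W, W ⊆ s → 0 ≤ f W) : 0 ≤ ex s p f := by
  have := ex_mono s hp0 hp1 (f := fun _ => 0) (g := f) h
  rwa [ex_const] at this

theorem ex_congr (s : Finset X) (p : ℝ) {f g : Finset X → ℝ} (h : ∀ W, W ⊆ s → f W = g W) :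
    ex s p f = ex s p g := by
  unfold ex
  apply Finset.sum_congr rfl
  intro W hW
  rw [h W (Finset.mem_powerset.mp hW)]

/-- independence of two disjoint blocks -/
theorem ex_split (a b : Finset X) (hab : Disjoint a b) (p : ℝ) (f g : Finset X → ℝ) :
    ex (a ∪ b) p (fun W => f (W ∩ a) * g (W ∩ b)) = ex a p f * ex b p g := by
  induction b using Finset.induction_on generalizing g with
  | empty =>
    rw [Finset.union_empty, ex_empty]
    rw [mul_comm, ← ex_mul_left]
    apply ex_congr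
    intro W hW
    rw [Finset.inter_empty, Finset.inter_eq_left.mpr hW, mul_comm]
  | insert x b hx ih =>
    have hxa : x ∉ a := fun h => (Finset.disjoint_left.mp hab) h (Finset.mem_insert_self x b)
    have hab' : Disjoint a b := hab.mono_right (Finset.subset_insert x b)
    rw [Finset.union_insert, ex_insert _ x (by simp [hxa, hx]), ex_insert b x hx]
    have e1 : ex (a ∪ b) p (fun W => f (W ∩ a) * g (W ∩ insert x b))
        = ex (a ∪ b) p (fun W => f (W ∩ a) * g (W ∩ b)) := by
      apply ex_congr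
      intro W hW
      have hxW : x ∉ W := fun h => by
        rcases Finset.mem_union.mp (hW h) with h | h
        · exact hxa h
        · exact hx h
      congr 2
      ext y
      simp only [Finset.mem_inter, Finset.mem_insert]
      constructor
      · rintro ⟨h1, h2 | h2⟩
        · exact absurd (h2 ▸ h1) hxW
        · exact ⟨h1, h2⟩
      · rintro ⟨h1, h2⟩
        exact ⟨h1, Or.inr h2⟩
    have e2 : ex (a ∪ b) p (fun W => f (insert x W ∩ a) * g (insert x W ∩ insert x b))
        = ex (a ∪ b) p (fun W => f (W ∩ a) * (fun Y => g (insert x Y)) (W ∩ b)) := by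
      apply ex_congr
      intro W hW
      rw [Finset.insert_inter_of_notMem hxa, ← Finset.insert_inter_distrib]
    rw [e1, e2, ih hab' g, ih hab' (fun Y => g (insert x Y))]
    ring

/-- a function of one block -/
theorem ex_block (s T : Finset X) (hT : T ⊆ s) (p : ℝ) (g : Finset X → ℝ) :
    ex s p (fun W => g (W ∩ T)) = ex T p g := by
  have h := ex_split T (s \ T) Finset.disjoint_sdiff p g (fun _ => 1)
  rw [Finset.union_sdiff_of_subset hT, ex_const, mul_one] at h
  rw [← h]
  exact ex_congr s p fun W _ => by ring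

/-- generating function -/
theorem ex_pow (s : Finset X) (p y : ℝ) :
    ex s p (fun W => y ^ W.card) = (1 - p + p * y) ^ s.card := by
  induction s using Finset.induction_on with
  | empty => simp [ex]
  | insert x s hx ih =>
    rw [ex_insert s x hx, ih]
    have : ex s p (fun W => y ^ (insert x W).card) = y * ex s p (fun W => y ^ W.card) := by
      rw [← ex_mul_left]
      refine ex_congr s p fun W hW => ?_
      rw [Finset.card_insert_of_notMem (fun h => hx (hW h)), pow_succ]
      ring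
    rw [this, ih, Finset.card_insert_of_notMem hx, pow_succ]
    ring

/-- the mean of the number of points -/
theorem ex_card (s : Finset X) (p : ℝ) :
    ex s p (fun W => (W.card : ℝ)) = s.card * p := by
  induction s using Finset.induction_on with
  | empty => simp [ex]
  | insert x s hx ih =>
    rw [ex_insert s x hx, ih]
    have : ex s p (fun W => ((insert x W).card : ℝ)) = ex s p (fun W => (W.card : ℝ) + 1) := by
      refine ex_congr s p fun W hW => ?_
      rw [Finset.card_insert_of_notMem (fun h => hx (hW h))]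
      push_cast
      ring
    rw [this, ex_add, ih, ex_const, Finset.card_insert_of_notMem hx]
    push_cast
    ring

/-- upper tail -/
theorem ex_tail_up (s : Finset X) {p : ℝ} (hp0 : 0 ≤ p) (hp1 : p ≤ 1) {ε : ℝ} (h0 : 0 ≤ ε)
    (h1 : ε ≤ 1) :
    ex s p (fun W => if (1 + ε) * (s.card * p) ≤ W.card then 1 else 0) ≤
      Real.exp (-(s.card * p * ε ^ 2 / 4)) := by
  set m : ℝ := (s.card : ℝ) with hm
  have hm0 : 0 ≤ m := Nat.cast_nonneg _
  set t : ℝ := ε / 2 with ht
  have ht0 : 0 ≤ t := by positivity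
  have ht1 : |t| ≤ 1 := by rw [abs_of_nonneg ht0]; linarith
  have hexp : Real.exp t ≤ 1 + t + t ^ 2 := by
    have := Real.abs_exp_sub_one_sub_id_le ht1
    have := (abs_le.1 this).2
    linarith
  have h2 : ex s p (fun W => if (1 + ε) * (m * p) ≤ W.card then 1 else 0) ≤
      ex s p (fun W => Real.exp (-(t * ((1 + ε) * (m * p)))) * (Real.exp t) ^ W.card) := by
    refine ex_mono s hp0 hp1 fun W _ => ?_
    rw [← Real.exp_nat_mul, ← Real.exp_add]
    split_ifs with h
    · apply Real.one_le_exp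
      nlinarith
    · exact (Real.exp_pos _).le
  refine h2.trans ?_
  rw [ex_mul_left, ex_pow]
  have h3 : 1 - p + p * Real.exp t ≤ Real.exp (p * (t + t ^ 2)) := by
    have := Real.add_one_le_exp (p * (t + t ^ 2))
    nlinarith
  have h4 : 0 ≤ 1 - p + p * Real.exp t := by
    have := Real.exp_pos t
    have : 0 ≤ 1 - p := by linarith
    positivity
  calc Real.exp (-(t * ((1 + ε) * (m * p)))) * (1 - p + p * Real.exp t) ^ s.card
      ≤ Real.exp (-(t * ((1 + ε) * (m * p)))) * (Real.exp (p * (t + t ^ 2))) ^ s.card :=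
        mul_le_mul_of_nonneg_left (pow_le_pow_left₀ h4 h3 _) (Real.exp_pos _).le
    _ = Real.exp (-(m * p * ε ^ 2 / 4)) := by
        rw [← Real.exp_nat_mul, ← Real.exp_add, ← hm, ht]
        congr 1
        ring

/-- lower tail -/
theorem ex_tail_down (s : Finset X) {p : ℝ} (hp0 : 0 ≤ p) (hp1 : p ≤ 1) {ε : ℝ} (h0 : 0 ≤ ε)
    (h1 : ε ≤ 1) :
    ex s p (fun W => if (W.card : ℝ) ≤ (1 - ε) * (s.card * p) then 1 else 0) ≤
      Real.exp (-(s.card * p * ε ^ 2 / 4)) := by
  set m : ℝ := (s.card : ℝ) with hm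
  have hm0 : 0 ≤ m := Nat.cast_nonneg _
  set t : ℝ := ε / 2 with ht
  have ht0 : 0 ≤ t := by positivity
  have ht1 : |-t| ≤ 1 := by rw [abs_neg, abs_of_nonneg ht0]; linarith
  have hexp : Real.exp (-t) ≤ 1 - t + t ^ 2 := by
    have := Real.abs_exp_sub_one_sub_id_le ht1
    have := (abs_le.1 this).2
    nlinarith
  have h2 : ex s p (fun W => if (W.card : ℝ) ≤ (1 - ε) * (m * p) then 1 else 0) ≤
      ex s p (fun W => Real.exp (t * ((1 - ε) * (m * p))) * (Real.exp (-t)) ^ W.card) := by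
    refine ex_mono s hp0 hp1 fun W _ => ?_
    rw [← Real.exp_nat_mul, ← Real.exp_add]
    split_ifs with h
    · apply Real.one_le_exp
      nlinarith
    · exact (Real.exp_pos _).le
  refine h2.trans ?_
  rw [ex_mul_left, ex_pow]
  have h3 : 1 - p + p * Real.exp (-t) ≤ Real.exp (p * (-t + t ^ 2)) := by
    have := Real.add_one_le_exp (p * (-t + t ^ 2))
    nlinarith
  have h4 : 0 ≤ 1 - p + p * Real.exp (-t) := by
    have := Real.exp_pos (-t)
    have : 0 ≤ 1 - p := by linarith
    positivity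
  calc Real.exp (t * ((1 - ε) * (m * p))) * (1 - p + p * Real.exp (-t)) ^ s.card
      ≤ Real.exp (t * ((1 - ε) * (m * p))) * (Real.exp (p * (-t + t ^ 2))) ^ s.card :=
        mul_le_mul_of_nonneg_left (pow_le_pow_left₀ h4 h3 _) (Real.exp_pos _).le
    _ = Real.exp (-(m * p * ε ^ 2 / 4)) := by
        rw [← Real.exp_nat_mul, ← Real.exp_add, ← hm, ht]
        congr 1
        ring

end exs

section gnp

open scoped Classical

/-- The probability that the binomial random graph `G(n,p)` has the property `P`. -/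
noncomputable def gnp (n : ℕ) (p : ℝ) (P : SimpleGraph (Fin n) → Prop) : ℝ :=
  ∑ G : SimpleGraph (Fin n),
    if P G then p ^ G.edgeSet.ncard * (1 - p) ^ (n.choose 2 - G.edgeSet.ncard) else 0

/-- edges as a finite set -/
noncomputable def eF {n : ℕ} (G : SimpleGraph (Fin n)) : Finset (Sym2 (Fin n)) := G.edgeSet.toFinset

theorem mem_eF {n : ℕ} {G : SimpleGraph (Fin n)} {e : Sym2 (Fin n)} : e ∈ eF G ↔ e ∈ G.edgeSet := by
  simp [eF]

theorem eF_card {n : ℕ} (G : SimpleGraph (Fin n)) : (eF G).card = G.edgeSet.ncard := by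
  rw [← Set.ncard_coe_finset]
  congr 1
  ext e
  rw [Finset.mem_coe, mem_eF]

/-- all pairs -/
noncomputable def top (n : ℕ) : Finset (Sym2 (Fin n)) := eF (⊤ : SimpleGraph (Fin n))

theorem mem_top {n : ℕ} {e : Sym2 (Fin n)} : e ∈ top n ↔ ¬ e.IsDiag := by
  unfold top
  rw [mem_eF, SimpleGraph.edgeSet_top]
  rfl

theorem top_card (n : ℕ) : (top n).card = n.choose 2 := by
  unfold top
  rw [eF_card, ← Nat.card_coe_set_eq, Nat.card_eq_fintype_card, ← SimpleGraph.edgeFinset_card,
    SimpleGraph.card_edgeFinset_top_eq_card_choose_two, Fintype.card_fin]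

/-- the graph with edge set `W` -/
def gr {n : ℕ} (W : Finset (Sym2 (Fin n))) : SimpleGraph (Fin n) :=
  SimpleGraph.fromEdgeSet (W : Set (Sym2 (Fin n)))

theorem gr_adj {n : ℕ} (W : Finset (Sym2 (Fin n))) (u v : Fin n) :
    (gr W).Adj u v ↔ s(u, v) ∈ W ∧ u ≠ v := by
  simp [gr]

theorem eF_gr {n : ℕ} {W : Finset (Sym2 (Fin n))} (hW : W ⊆ top n) : eF (gr W) = W := by
  ext e
  unfold gr
  rw [mem_eF, SimpleGraph.edgeSet_fromEdgeSet, Set.mem_sdiff, Finset.mem_coe]
  exact ⟨fun h => h.1, fun h => ⟨h, mem_top.1 (hW h)⟩⟩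

theorem gr_eF {n : ℕ} (G : SimpleGraph (Fin n)) : gr (eF G) = G := by
  unfold gr
  have : ((eF G : Finset (Sym2 (Fin n))) : Set (Sym2 (Fin n))) = G.edgeSet := by
    ext e; rw [Finset.mem_coe, mem_eF]
  rw [this, SimpleGraph.fromEdgeSet_edgeSet]

/-- expectation of a function of the random graph, over edge sets -/
theorem sum_gr {n : ℕ} (p : ℝ) (f : SimpleGraph (Fin n) → ℝ) :
    ∑ G : SimpleGraph (Fin n), p ^ G.edgeSet.ncard * (1 - p) ^ (n.choose 2 - G.edgeSet.ncard) * f G =
      ex (top n) p (fun W => f (gr W)) := by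
  unfold ex
  rw [top_card]
  apply Finset.sum_bij' (fun G _ => eF G) (fun W _ => gr W)
  · intro G _
    rw [Finset.mem_powerset]
    intro e he
    rw [mem_top]
    rw [mem_eF] at he
    exact G.not_isDiag_of_mem_edgeSet he
  · intro W _
    exact Finset.mem_univ _
  · intro G _
    exact gr_eF G
  · intro W hW
    exact eF_gr (Finset.mem_powerset.1 hW)
  · intro G _
    beta_reduce
    rw [gr_eF, eF_card]

theorem gnp_eq (n : ℕ) (p : ℝ) (P : SimpleGraph (Fin n) → Prop) :
    gnp n p P = ex (top n) p (fun W => if P (gr W) then 1 else 0) := by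
  rw [← sum_gr p (fun G => if P G then 1 else 0)]
  unfold gnp
  refine Finset.sum_congr rfl fun G _ => ?_
  split_ifs <;> simp

variable {n : ℕ} {p : ℝ}

theorem gnp_nonneg (hp0 : 0 ≤ p) (hp1 : p ≤ 1) (P : SimpleGraph (Fin n) → Prop) :
    0 ≤ gnp n p P := by
  rw [gnp_eq]
  refine ex_nonneg _ hp0 hp1 fun W _ => ?_
  split_ifs <;> norm_num

theorem gnp_not (P : SimpleGraph (Fin n) → Prop) :
    gnp n p (fun G => ¬ P G) = 1 - gnp n p P := by
  have h : gnp n p (fun G => ¬ P G) + gnp n p P = 1 := by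
    rw [gnp_eq, gnp_eq, ← ex_add]
    refine (ex_congr _ _ fun W _ => ?_).trans (ex_const (top n) p 1)
    by_cases h : P (gr W) <;> simp [h]
  linarith

theorem gnp_imp (hp0 : 0 ≤ p) (hp1 : p ≤ 1) {P Q : SimpleGraph (Fin n) → Prop}
    (h : ∀ G, P G → Q G) : gnp n p P ≤ gnp n p Q := by
  rw [gnp_eq, gnp_eq]
  refine ex_mono _ hp0 hp1 fun W _ => ?_
  by_cases h1 : P (gr W)
  · rw [if_pos h1, if_pos (h _ h1)]
  · rw [if_neg h1]
    split_ifs <;> norm_num

theorem gnp_true : gnp n p (fun _ => True) = 1 := by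
  rw [gnp_eq]
  simp only [if_true]
  exact ex_const _ p 1

theorem gnp_le_one (hp0 : 0 ≤ p) (hp1 : p ≤ 1) (P : SimpleGraph (Fin n) → Prop) :
    gnp n p P ≤ 1 := by
  rw [← gnp_true (n := n) (p := p)]
  exact gnp_imp hp0 hp1 (fun _ _ => trivial)

theorem gnp_or (hp0 : 0 ≤ p) (hp1 : p ≤ 1) (P Q : SimpleGraph (Fin n) → Prop) :
    gnp n p (fun G => P G ∨ Q G) ≤ gnp n p P + gnp n p Q := by
  rw [gnp_eq, gnp_eq, gnp_eq, ← ex_add]
  refine ex_mono _ hp0 hp1 fun W _ => ?_
  by_cases h1 : P (gr W) <;> by_cases h2 : Q (gr W) <;> simp [h1, h2]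

theorem gnp_union (hp0 : 0 ≤ p) (hp1 : p ≤ 1) {ι : Type*} (s : Finset ι)
    (P : ι → SimpleGraph (Fin n) → Prop) :
    gnp n p (fun G => ∃ i ∈ s, P i G) ≤ ∑ i ∈ s, gnp n p (P i) := by
  simp only [gnp_eq]
  rw [← ex_sum]
  refine ex_mono _ hp0 hp1 fun W _ => ?_
  by_cases h : ∃ i ∈ s, P i (gr W)
  · rw [if_pos h]
    obtain ⟨i, hi, hPi⟩ := h
    refine le_trans ?_ (Finset.single_le_sum (f := fun i => if P i (gr W) then (1 : ℝ) else 0) ?_ hi)
    · simp only [if_pos hPi]; exact le_refl _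
    · intro j _
      show (0 : ℝ) ≤ if P j (gr W) then 1 else 0
      split_ifs <;> norm_num
  · rw [if_neg h]
    apply Finset.sum_nonneg
    intro j _
    split_ifs <;> norm_num

/-- the pairs at `v` -/
noncomputable def star {n : ℕ} (v : Fin n) : Finset (Sym2 (Fin n)) :=
  (univ.erase v).image (fun w => s(v, w))

theorem mem_star {n : ℕ} {v : Fin n} {e : Sym2 (Fin n)} :
    e ∈ star v ↔ ¬ e.IsDiag ∧ v ∈ e := by
  unfold star
  rw [Finset.mem_image]
  constructor
  · rintro ⟨w, hw, rfl⟩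
    have hw' : w ≠ v := Finset.ne_of_mem_erase hw
    exact ⟨by simpa using hw'.symm, by simp⟩
  · rintro ⟨h1, h2⟩
    obtain ⟨w, rfl⟩ := h2
    refine ⟨w, Finset.mem_erase.2 ⟨?_, mem_univ _⟩, rfl⟩
    intro h
    apply h1
    rw [h]
    simp

theorem star_subset {n : ℕ} (v : Fin n) : star v ⊆ top n := fun _ he => mem_top.2 (mem_star.1 he).1

theorem star_card {n : ℕ} (v : Fin n) : (star v).card = n - 1 := by
  unfold star
  rw [Finset.card_image_of_injective]
  · rw [Finset.card_erase_of_mem (mem_univ v)]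
    simp
  · intro a b h
    exact Sym2.congr_right.1 h

theorem degree_gr {n : ℕ} (W : Finset (Sym2 (Fin n))) (v : Fin n) :
    (gr W).degree v = (W ∩ star v).card := by
  rw [← SimpleGraph.card_neighborFinset_eq_degree]
  have h : W ∩ star v = ((gr W).neighborFinset v).image (fun w => s(v, w)) := by
    ext e
    rw [Finset.mem_inter, mem_star, Finset.mem_image]
    constructor
    · rintro ⟨h1, h2, h3⟩
      obtain ⟨w, rfl⟩ := h3
      refine ⟨w, ?_, rfl⟩
      rw [SimpleGraph.mem_neighborFinset, gr_adj]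
      exact ⟨h1, by simpa using h2⟩
    · rintro ⟨w, hw, rfl⟩
      rw [SimpleGraph.mem_neighborFinset, gr_adj] at hw
      exact ⟨hw.1, by simpa using hw.2, by simp⟩
  rw [h, Finset.card_image_of_injective]
  intro a b h
  exact Sym2.congr_right.1 h

theorem gnp_degree_up (hp0 : 0 ≤ p) (hp1 : p ≤ 1) (v : Fin n) {ε : ℝ} (h0 : 0 ≤ ε) (h1 : ε ≤ 1) :
    gnp n p (fun G => (1 + ε) * (((n - 1 : ℕ) : ℝ) * p) ≤ G.degree v) ≤
      Real.exp (-(((n - 1 : ℕ) : ℝ) * p * ε ^ 2 / 4)) := by
  have h2 := ex_tail_up (star v) hp0 hp1 h0 h1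
  rw [star_card, ← ex_block (top n) (star v) (star_subset v)] at h2
  rw [gnp_eq]
  refine le_trans (le_of_eq (ex_congr _ _ fun W _ => ?_)) h2
  rw [degree_gr]

theorem gnp_degree_down (hp0 : 0 ≤ p) (hp1 : p ≤ 1) (v : Fin n) {ε : ℝ} (h0 : 0 ≤ ε)
    (h1 : ε ≤ 1) :
    gnp n p (fun G => (G.degree v : ℝ) ≤ (1 - ε) * (((n - 1 : ℕ) : ℝ) * p)) ≤
      Real.exp (-(((n - 1 : ℕ) : ℝ) * p * ε ^ 2 / 4)) := by
  have h2 := ex_tail_down (star v) hp0 hp1 h0 h1
  rw [star_card, ← ex_block (top n) (star v) (star_subset v)] at h2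
  rw [gnp_eq]
  refine le_trans (le_of_eq (ex_congr _ _ fun W _ => ?_)) h2
  rw [degree_gr]

/-- all degrees are concentrated -/
theorem gnp_degrees (hp0 : 0 ≤ p) (hp1 : p ≤ 1) {ε : ℝ} (h0 : 0 ≤ ε) (h1 : ε ≤ 1) :
    1 - 2 * n * Real.exp (-(((n - 1 : ℕ) : ℝ) * p * ε ^ 2 / 4)) ≤
    gnp n p (fun G => ∀ v, (1 - ε) * (((n - 1 : ℕ) : ℝ) * p) < G.degree v ∧
      (G.degree v : ℝ) < (1 + ε) * (((n - 1 : ℕ) : ℝ) * p)) := by
  have h2 := gnp_not (n := n) (p := p) (fun G => ∀ v, (1 - ε) * (((n - 1 : ℕ) : ℝ) * p) < G.degree v ∧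
      (G.degree v : ℝ) < (1 + ε) * (((n - 1 : ℕ) : ℝ) * p))
  have h3 : gnp n p (fun G => ¬ ∀ v, (1 - ε) * (((n - 1 : ℕ) : ℝ) * p) < G.degree v ∧
      (G.degree v : ℝ) < (1 + ε) * (((n - 1 : ℕ) : ℝ) * p)) ≤
      2 * n * Real.exp (-(((n - 1 : ℕ) : ℝ) * p * ε ^ 2 / 4)) := by
    have h4 : gnp n p (fun G => ¬ ∀ v, (1 - ε) * (((n - 1 : ℕ) : ℝ) * p) < G.degree v ∧
        (G.degree v : ℝ) < (1 + ε) * (((n - 1 : ℕ) : ℝ) * p)) ≤
        gnp n p (fun G => ∃ v ∈ (univ : Finset (Fin n)),
          (G.degree v : ℝ) ≤ (1 - ε) * (((n - 1 : ℕ) : ℝ) * p) ∨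
          (1 + ε) * (((n - 1 : ℕ) : ℝ) * p) ≤ G.degree v) := by
      refine gnp_imp hp0 hp1 fun G hG => ?_
      push Not at hG
      obtain ⟨v, hv⟩ := hG
      refine ⟨v, mem_univ _, ?_⟩
      by_cases h : (1 - ε) * (((n - 1 : ℕ) : ℝ) * p) < G.degree v
      · exact Or.inr (hv h)
      · exact Or.inl (not_lt.1 h)
    refine h4.trans ((gnp_union hp0 hp1 _ _).trans ?_)
    have h5 : ∀ v ∈ (univ : Finset (Fin n)), gnp n p (fun G =>
        (G.degree v : ℝ) ≤ (1 - ε) * (((n - 1 : ℕ) : ℝ) * p) ∨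
          (1 + ε) * (((n - 1 : ℕ) : ℝ) * p) ≤ G.degree v) ≤
        2 * Real.exp (-(((n - 1 : ℕ) : ℝ) * p * ε ^ 2 / 4)) := by
      intro v _
      refine (gnp_or hp0 hp1 _ _).trans ?_
      have := gnp_degree_up hp0 hp1 v h0 h1
      have := gnp_degree_down hp0 hp1 v h0 h1
      linarith
    refine (Finset.sum_le_sum h5).trans (le_of_eq ?_)
    rw [Finset.sum_const, Finset.card_univ, Fintype.card_fin, nsmul_eq_mul]
    ring
  rw [h2] at h3
  linarith

end gnp

end Pool.Agent.Q221.Gnp
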