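import Pool.Agent.Q221.Gnp.Basic
import Mathlib.Combinatorics.SimpleGraph.DeleteEdges

/-!
# Path covers and deletion of edges
-/

set_option autoImplicit false
set_option linter.unusedSectionVars false

namespace Pool.Agent.Q221.PathCover

open Finset
open scoped Classical

/-- `L` lists vertex-disjoint paths of `H` (each path is the nonempty list of its vertices in order)
which together cover all vertices. -/
def IsPathCover {V : Type} (H : SimpleGraph V) (L : List (List V)) : Prop :=
  (∀ P ∈ L, P ≠ [] ∧ P.IsChain H.Adj) ∧ L.flatten.Nodup ∧ ∀ v, v ∈ L.flatten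

/-- The path cover number: the least number of vertex-disjoint paths covering all vertices. -/
noncomputable def mu {V : Type} (H : SimpleGraph V) : ℕ :=
  sInf {m | ∃ L, IsPathCover H L ∧ L.length = m}

/-- The sizes of the sets of edges whose deletion from `G` leaves path cover number `k`. -/
def delSizes {V : Type} (G : SimpleGraph V) (k : ℕ) : Set ℕ :=
  {m | ∃ F : Set (Sym2 V), F ⊆ G.edgeSet ∧ F.ncard = m ∧ mu (G.deleteEdges F) = k}

variable {V : Type}

theorem mu_le {H : SimpleGraph V} {L : List (List V)} (h : IsPathCover H L) : mu H ≤ L.length :=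
  Nat.sInf_le ⟨L, h, rfl⟩

theorem exists_cover [Fintype V] (H : SimpleGraph V) : ∃ L, IsPathCover H L := by
  refine ⟨(univ : Finset V).toList.map (fun v => [v]), ?_, ?_, ?_⟩
  · intro P hP
    rw [List.mem_map] at hP
    obtain ⟨v, -, rfl⟩ := hP
    exact ⟨by simp, List.isChain_singleton v⟩
  · have : ((univ : Finset V).toList.map (fun v => [v])).flatten = (univ : Finset V).toList := by
      generalize (univ : Finset V).toList = l
      induction l with
      | nil => rfl
      | cons a l ih => simpa using ih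
    rw [this]
    exact Finset.nodup_toList _
  · intro v
    rw [List.mem_flatten]
    exact ⟨[v], List.mem_map.2 ⟨v, by simp, rfl⟩, by simp⟩

theorem mu_spec [Fintype V] (H : SimpleGraph V) : ∃ L, IsPathCover H L ∧ L.length = mu H := by
  obtain ⟨L, hL⟩ := exists_cover H
  exact Nat.sInf_mem (s := {m | ∃ L, IsPathCover H L ∧ L.length = m}) ⟨L.length, L, hL, rfl⟩

theorem mu_anti [Fintype V] {H H' : SimpleGraph V} (h : H ≤ H') : mu H' ≤ mu H := by
  obtain ⟨L, ⟨h1, h2, h3⟩, h4⟩ := mu_spec H
  rw [← h4]
  exact mu_le ⟨fun P hP => ⟨(h1 P hP).1, (h1 P hP).2.imp fun a b hab => h hab⟩, h2, h3⟩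

/-- deleting one edge raises the path cover number by at most one -/
theorem mu_delete [Fintype V] (H : SimpleGraph V) (e : Sym2 V) :
    mu (H.deleteEdges {e}) ≤ mu H + 1 := by
  obtain ⟨L, ⟨h1, h2, h3⟩, h4⟩ := mu_spec H
  rw [← h4]
  by_cases hall : ∀ P ∈ L, P.IsChain (H.deleteEdges {e}).Adj
  · exact (mu_le ⟨fun P hP => ⟨(h1 P hP).1, hall P hP⟩, h2, h3⟩).trans (Nat.le_succ _)
  · push Not at hall
    obtain ⟨P, hP, hPc⟩ := hall
    rw [List.isChain_iff_forall_rel_of_append_cons_cons] at hPc
    push Not at hPc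
    obtain ⟨a, b, l1, l2, hsplit, hab⟩ := hPc
    have hchP := (h1 P hP).2
    have hHab : H.Adj a b := (List.isChain_iff_forall_rel_of_append_cons_cons.1 hchP) hsplit
    have heab : s(a, b) = e := by
      by_contra hne
      exact hab (SimpleGraph.deleteEdges_adj.2 ⟨hHab, by simpa using hne⟩)
    obtain ⟨A, B, hL⟩ := List.append_of_mem hP
    have hflat : L.flatten = A.flatten ++ ((l1 ++ a :: b :: l2) ++ B.flatten) := by
      rw [hL, hsplit]; simp
    have hnd := h2
    rw [hflat] at hnd
    have hndP : (l1 ++ a :: b :: l2).Nodup :=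
      (List.nodup_append.1 (List.nodup_append.1 hnd).2.1).1
    -- lists avoiding one of the endpoints are chains of the smaller graph
    have havoid : ∀ (Q : List V), Q.IsChain H.Adj → (a ∉ Q ∨ b ∉ Q) →
        Q.IsChain (H.deleteEdges {e}).Adj := by
      intro Q hQ hno
      refine hQ.imp_of_mem_imp ?_
      intro x y hx hy hxy
      rw [SimpleGraph.deleteEdges_adj]
      refine ⟨hxy, ?_⟩
      intro he
      rw [Set.mem_singleton_iff, ← heab, Sym2.eq_iff] at he
      rcases he with ⟨rfl, rfl⟩ | ⟨rfl, rfl⟩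
      · exact hno.elim (fun h => h hx) (fun h => h hy)
      · exact hno.elim (fun h => h hy) (fun h => h hx)
    have haP : a ∈ l1 ++ a :: b :: l2 := by simp
    have hother : ∀ Q, Q ∈ A ∨ Q ∈ B → a ∉ Q := by
      intro Q hQ haQ
      have hd := List.nodup_append.1 hnd
      rcases hQ with hQ | hQ
      · exact hd.2.2 a (List.mem_flatten.2 ⟨Q, hQ, haQ⟩) a (List.mem_append_left _ haP) rfl
      · exact (List.nodup_append.1 hd.2.1).2.2 a haP a (List.mem_flatten.2 ⟨Q, hQ, haQ⟩) rfl
    have hcov : IsPathCover (H.deleteEdges {e}) (A ++ (l1 ++ [a]) :: (b :: l2) :: B) := by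
      have hfl2 : (A ++ (l1 ++ [a]) :: (b :: l2) :: B).flatten = L.flatten := by
        rw [hflat]; simp
      refine ⟨?_, by rw [hfl2]; exact h2, by rw [hfl2]; exact h3⟩
      intro Q hQ
      rw [List.mem_append, List.mem_cons, List.mem_cons] at hQ
      have hch : (l1 ++ a :: b :: l2).IsChain H.Adj := hsplit ▸ hchP
      rcases hQ with hQ | hQ | hQ | hQ
      · have hQL : Q ∈ L := by rw [hL]; exact List.mem_append_left _ hQ
        exact ⟨(h1 Q hQL).1, havoid Q (h1 Q hQL).2 (Or.inl (hother Q (Or.inl hQ)))⟩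
      · subst hQ
        refine ⟨by simp, havoid _ ?_ (Or.inr ?_)⟩
        · have : l1 ++ a :: b :: l2 = (l1 ++ [a]) ++ (b :: l2) := by simp
          rw [this] at hch
          exact hch.left_of_append
        · have : l1 ++ a :: b :: l2 = (l1 ++ [a]) ++ (b :: l2) := by simp
          rw [this] at hndP
          intro hb
          exact (List.nodup_append.1 hndP).2.2 b hb b (by simp) rfl
      · subst hQ
        refine ⟨by simp, havoid _ ?_ (Or.inl ?_)⟩
        · have : l1 ++ a :: b :: l2 = (l1 ++ [a]) ++ (b :: l2) := by simp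
          rw [this] at hch
          exact hch.right_of_append
        · have : l1 ++ a :: b :: l2 = (l1 ++ [a]) ++ (b :: l2) := by simp
          rw [this] at hndP
          intro ha
          exact (List.nodup_append.1 hndP).2.2 a (by simp) a ha rfl
      · have hQL : Q ∈ L := by rw [hL]; exact List.mem_append_right _ (List.mem_cons_of_mem _ hQ)
        exact ⟨(h1 Q hQL).1, havoid Q (h1 Q hQL).2 (Or.inl (hother Q (Or.inr hQ)))⟩
    refine (mu_le hcov).trans (le_of_eq ?_)
    rw [hL]
    simp
    omega

/-- continuity -/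
theorem exists_exact [Fintype V] (G : SimpleGraph V) (k : ℕ) (hG : mu G ≤ k)
    (F0 : Finset (Sym2 V)) (h : k ≤ mu (G.deleteEdges (F0 : Set (Sym2 V)))) :
    ∃ F : Finset (Sym2 V), F ⊆ F0 ∧ mu (G.deleteEdges (F : Set (Sym2 V))) = k := by
  induction F0 using Finset.induction_on with
  | empty =>
    refine ⟨∅, Finset.Subset.refl _, le_antisymm ?_ h⟩
    simpa using hG
  | insert e F0 he ih =>
    by_cases h1 : k ≤ mu (G.deleteEdges (F0 : Set (Sym2 V)))
    · obtain ⟨F, hF, h2⟩ := ih h1
      exact ⟨F, hF.trans (Finset.subset_insert _ _), h2⟩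
    · refine ⟨insert e F0, Finset.Subset.refl _, le_antisymm ?_ h⟩
      have h2 : G.deleteEdges ((insert e F0 : Finset (Sym2 V)) : Set (Sym2 V)) =
          (G.deleteEdges (F0 : Set (Sym2 V))).deleteEdges {e} := by
        rw [SimpleGraph.deleteEdges_deleteEdges, Finset.coe_insert, Set.union_singleton]
      rw [h2]
      have := mu_delete (G.deleteEdges (F0 : Set (Sym2 V))) e
      omega

/-- isolated vertices -/
theorem isolated [Fintype V] (H : SimpleGraph V) (S : Finset V) (hS : ∀ v ∈ S, ∀ w, ¬ H.Adj v w)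
    (hcard : S.card < Fintype.card V) : S.card + 1 ≤ mu H := by
  obtain ⟨L, ⟨h1, h2, h3⟩, h4⟩ := mu_spec H
  rw [← h4]
  have hsing : ∀ v ∈ S, [v] ∈ L := by
    intro v hv
    obtain ⟨P, hP, hvP⟩ := List.mem_flatten.1 (h3 v)
    obtain ⟨l1, l2, rfl⟩ := List.append_of_mem hvP
    have hc := (h1 _ hP).2
    have hl2 : l2 = [] := by
      cases l2 with
      | nil => rfl
      | cons b l2 =>
        exact absurd ((List.isChain_iff_forall_rel_of_append_cons_cons.1 hc) rfl) (hS v hv b)
    have hl1 : l1 = [] := by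
      rcases List.eq_nil_or_concat l1 with h | ⟨l1', a, rfl⟩
      · exact h
      · have h5 : l1'.concat a ++ v :: l2 = l1' ++ a :: v :: l2 := by simp
        exact absurd ((List.isChain_iff_forall_rel_of_append_cons_cons.1 hc) h5).symm (hS v hv a)
    rw [hl1, hl2] at hP
    simpa using hP
  obtain ⟨w, hw⟩ : ∃ w, w ∉ S := by
    by_contra hcon
    push Not at hcon
    have : S = univ := Finset.eq_univ_iff_forall.2 hcon
    rw [this, Finset.card_univ] at hcard
    exact lt_irrefl _ hcard
  obtain ⟨Q, hQ, hwQ⟩ := List.mem_flatten.1 (h3 w)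
  have hsub : insert Q (S.image (fun v => [v])) ⊆ L.toFinset := by
    intro R hR
    rw [Finset.mem_insert, Finset.mem_image] at hR
    rw [List.mem_toFinset]
    rcases hR with rfl | ⟨v, hv, rfl⟩
    · exact hQ
    · exact hsing v hv
  have hQn : Q ∉ S.image (fun v => [v]) := by
    rw [Finset.mem_image]
    rintro ⟨v, hv, rfl⟩
    rw [List.mem_singleton] at hwQ
    exact hw (hwQ ▸ hv)
  have := (Finset.card_le_card hsub).trans (List.toFinset_card_le L)
  rw [Finset.card_insert_of_notMem hQn, Finset.card_image_of_injective _ (by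
    intro a b h; simpa using h)] at this
  exact this

/-- **Upper bound**: the least number of deletions is at most the sum of the degrees of any `k - 1`
vertices. -/
theorem least_le [Fintype V] (G : SimpleGraph V) (k : ℕ) (hk : 1 ≤ k) (hkn : k ≤ Fintype.card V)
    (S : Finset V) (hS : S.card = k - 1) (m : ℕ) (hm : IsLeast (delSizes G k) m) :
    m ≤ ∑ v ∈ S, G.degree v := by
  obtain ⟨⟨F, hF, hFm, hFk⟩, hleast⟩ := hm
  have hG : mu G ≤ k := by
    rw [← hFk]
    exact mu_anti (SimpleGraph.deleteEdges_le F)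
  set F0 : Finset (Sym2 V) := S.biUnion (fun v => G.incidenceFinset v) with hF0
  have hiso : ∀ v ∈ S, ∀ w, ¬ (G.deleteEdges (F0 : Set (Sym2 V))).Adj v w := by
    intro v hv w h
    rw [SimpleGraph.deleteEdges_adj] at h
    apply h.2
    rw [Finset.mem_coe, hF0, Finset.mem_biUnion]
    refine ⟨v, hv, ?_⟩
    rw [SimpleGraph.mem_incidenceFinset]
    exact ⟨h.1, by simp⟩
  have h1 := isolated _ S hiso (by omega)
  obtain ⟨F', hF', hmu⟩ := exists_exact G k hG F0 (by omega)
  have h2 : m ≤ F'.card := by
    apply hleast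
    refine ⟨(F' : Set (Sym2 V)), ?_, Set.ncard_coe_finset F', hmu⟩
    intro e he
    have := hF' (Finset.mem_coe.1 he)
    rw [hF0, Finset.mem_biUnion] at this
    obtain ⟨v, -, hv⟩ := this
    rw [SimpleGraph.mem_incidenceFinset] at hv
    exact hv.1
  refine h2.trans ((Finset.card_le_card hF').trans (Finset.card_biUnion_le.trans (le_of_eq ?_)))
  exact Finset.sum_congr rfl fun v _ => SimpleGraph.card_incidenceFinset_eq_degree G v

end Pool.Agent.Q221.PathCover
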